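import Pool.Agent.Lib.MP_5684f0_lc.G.Base

/-! A base of open sets in a product of copies of a sequence space, with a point prepared for each
request. -/

namespace Pool.Agent.Lib.MP_5684f0_lc.N

open Filter Topology Set PiNat G

variable {D : Type} [TopologicalSpace D] [DiscreteTopology D] {Q : Set (Y D) → Set (Y D) → Prop}

theorem stage (hQ : ∀ O N, Q O N → IsOpen N ∧ N.Nonempty ∧ N ⊆ O)
    (HF : ∀ A, IsOpen A → A.Nonempty → ∃ O N, IsOpen O ∧ O ⊆ A ∧ Q O N)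
    {Z : ℕ → Set (ℕ → Y D)} (hZ : ∀ d, IsOpen (Z d)) (hd : Dense (⋃ d, Z d))
    {E : Set (ℕ → Y D)} (hE : IsOpen E) (hE' : Dense E) (x : ℕ → Y D) (s l : ℕ) {n : ℕ}
    {c : ℕ → Set (Y D)} (hc : Cnd c) (hF : ∀ m < n, ∃ N, Q (c m) N) :
    ∃ c' d, (Cnd c' ∧ ∀ m < n + 1, ∃ N, Q (c' m) N) ∧ (∀ m < n, c' m = c m) ∧
      (∀ m, c' m ⊆ c m) ∧
      (∀ w : ℕ → Y D, (∀ m, n ≤ m → w m ∈ c' m) → (fun m => w (m + n)) ∈ Z d) ∧
      (s ≤ n → ∃ u : ℕ → Y D, (∀ m < s, u m ∈ cylinder (x m) l) ∧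
        (∀ m < n, s ≤ m → u m ∈ Classical.epsilon (Q (c m))) ∧
        ∀ w, (∀ m < n, w m = u m) → (∀ m, n ≤ m → w m ∈ c' m) → w ∈ E) := by
  obtain ⟨L0, hL0⟩ := hc.fin
  let e : ℕ → Set (Y D) := fun m => if m < n then
    if m < s then cylinder (x m) l else Classical.epsilon (Q (c m)) else c m
  have he : Cnd e := by
    refine ⟨fun m => ?_, fun m => ?_, max n L0, fun m hm => ?_⟩ <;> simp only [e]
    · split_ifs with h
      exacts [cyl_open _ _, (hQ _ _ (Classical.epsilon_spec (hF m h))).1, hc.op m]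
    · split_ifs with h
      exacts [⟨_, self_mem_cylinder _ _⟩, (hQ _ _ (Classical.epsilon_spec (hF m h))).2.1, hc.ne m]
    · rw [if_neg (by omega), hL0 m (by omega)]
  obtain ⟨_, c1, a1, a2, -, a4⟩ := he.shrink (Z := fun _ => E) (fun _ => hE)
    (by rwa [iUnion_const]) 0
  obtain ⟨L, hL⟩ := a1.fin
  have h2 : Cnd fun m => c1 (m + n) :=
    ⟨fun m => a1.op _, fun m => a1.ne _, L, fun m hm => hL _ (by omega)⟩
  obtain ⟨d, c2, b1, b2, -, b4⟩ := h2.shrink hZ hd 0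
  obtain ⟨O, N, o1, o3, o4⟩ := HF _ (b1.op 0) (b1.ne 0)
  obtain ⟨L', hL'⟩ := b1.fin
  let c' : ℕ → Set (Y D) := fun m => if m < n then c m else if m = n then O else c2 (m - n)
  have e1 : ∀ m < n, c' m = c m := fun m hm => if_pos hm
  have e2 : c' n = O := by simp [c']
  have e3 : ∀ m, n ≤ m → c' m ⊆ c2 (m - n) := by
    intro m hm
    rcases hm.eq_or_lt with rfl | hm
    · rw [e2, Nat.sub_self]; exact o3
    · simp only [c', if_neg hm.le.not_gt, if_neg hm.ne']; exact Subset.rfl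
  have e4 : ∀ m, n ≤ m → c' m ⊆ c1 m := fun m hm => (e3 m hm).trans (by
    have := b2 (m - n)
    rwa [Nat.sub_add_cancel hm] at this)
  choose u hu using a1.ne
  refine ⟨c', d, ⟨⟨fun m => ?_, fun m => ?_, L' + n + 1, fun m hm => ?_⟩, fun m hm => ?_⟩, e1,
    fun m => ?_, fun w hw => b4 _ fun m => ?_, fun h => ⟨u, fun m hm => ?_, fun m hm hs => ?_,
      fun w h1 h2 => a4 w fun m => ?_⟩⟩
  · simp only [c']; split_ifs; exacts [hc.op m, o1, b1.op _]
  · simp only [c']; split_ifs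
    exacts [hc.ne m, (hQ _ _ o4).2.1.mono (hQ _ _ o4).2.2, b1.ne _]
  · simp only [c']
    rw [if_neg (by omega), if_neg (by omega), hL' _ (by omega)]
  · rcases (Nat.lt_succ_iff.1 hm).eq_or_lt with rfl | hm
    · exact ⟨N, e2 ▸ o4⟩
    · exact e1 m hm ▸ hF m hm
  · rcases lt_or_ge m n with h | h
    · exact (e1 m h).subset
    · exact ((e4 m h).trans (a2 m)).trans (if_neg h.not_gt : e m = c m).subset
  · simpa using e3 (m + n) (by omega) (hw (m + n) (by omega))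
  · simpa only [e, if_pos hm, if_pos (hm.trans_le h)] using a2 m (hu m)
  · simpa only [e, if_pos hm, if_neg hs.not_gt] using a2 m (hu m)
  · rcases lt_or_ge m n with h | h
    exacts [h1 m h ▸ hu m, e4 m h (h2 m h)]

theorem base [Countable D] [Nonempty D] (hQ : ∀ O N, Q O N → IsOpen N ∧ N.Nonempty ∧ N ⊆ O)
    (HF : ∀ A, IsOpen A → A.Nonempty → ∃ O N, IsOpen O ∧ O ⊆ A ∧ Q O N)
    {Z : ℕ → Set (ℕ → Y D)} (hZ : ∀ d, IsOpen (Z d)) (hd : Dense (⋃ d, Z d))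
    {E : ℕ → Set (ℕ → Y D)} (hE : ∀ j, IsOpen (E j)) (hE' : ∀ j, Dense (E j)) :
    ∃ (O N : ℕ → Set (Y D)) (d : ℕ → ℕ), (∀ m, IsOpen (O m) ∧ Q (O m) (N m)) ∧
      (∀ i (w : ℕ → Y D), (∀ m, w m ∈ O m) → (fun m => w (m + i)) ∈ Z (d i)) ∧
      ∀ (x : ℕ → Y D) (s l j : ℕ), ∃ w ∈ E j,
        (∀ m < s, w m ∈ cylinder (x m) l) ∧ ∀ m, s ≤ m → w m ∈ N m := by
  let T := fun n => {c : ℕ → Set (Y D) // Cnd c ∧ ∀ m < n, ∃ N, Q (c m) N}
  let r := TopologicalSpace.denseSeq (ℕ → Y D)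
  choose F d F1 F2 F3 F4 F5 using fun (n : ℕ) (c : T n) =>
    stage hQ HF hZ hd (hE n.unpair.2.unpair.2.unpair.2) (hE' n.unpair.2.unpair.2.unpair.2)
      (r n.unpair.2.unpair.1) n.unpair.1 n.unpair.2.unpair.2.unpair.1 c.2.1 c.2.2
  let q : ∀ n, T n := fun n => Nat.rec (motive := T)
    ⟨fun _ => univ, ⟨fun _ => isOpen_univ, fun _ => univ_nonempty, 0, fun _ _ => rfl⟩,
      fun m hm => absurd hm (Nat.not_lt_zero m)⟩ (fun n c => ⟨F n c, F1 n c⟩) n
  let O : ℕ → Set (Y D) := fun m => (q (m + 1)).1 m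
  have e1 : ∀ m n, m < n → (q n).1 m = O m := by
    intro m n h
    induction h with
    | refl => rfl
    | @step k h ih => exact (F2 k (q k) m h).trans ih
  have e2 : ∀ m n n', n ≤ n' → (q n').1 m ⊆ (q n).1 m := by
    intro m n n' h
    induction h with
    | refl => exact Subset.rfl
    | @step k _ ih => exact (F3 k (q k) m).trans ih
  have e3 : ∀ n m, n ≤ m → O m ⊆ F n (q n) m := fun n m h => e2 m (n + 1) (m + 1) (by omega)
  have e4 : ∀ m, Q (O m) (Classical.epsilon (Q (O m))) := fun m =>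
    Classical.epsilon_spec ((q (m + 1)).2.2 m (Nat.lt_succ_self m))
  refine ⟨O, fun m => Classical.epsilon (Q (O m)), fun n => d n (q n),
    fun m => ⟨(q (m + 1)).2.1.op m, e4 m⟩,
    fun i w hw => F4 i (q i) w fun m hm => e3 i m hm (hw m), fun x s l j => ?_⟩
  obtain ⟨k, hk⟩ := (TopologicalSpace.denseRange_denseSeq (ℕ → Y D)).exists_mem_open
    (isOpen_set_pi (finite_Iio s) fun m _ => cyl_open (x m) l)
    ⟨x, fun m _ => self_mem_cylinder _ _⟩
  obtain ⟨n, hn⟩ : ∃ n, n = Nat.pair s (Nat.pair k (Nat.pair l j)) := ⟨_, rfl⟩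
  have h5 := F5 n (q n)
  rw [show n.unpair = (s, Nat.pair k (Nat.pair l j)) by simp [hn]] at h5
  simp only [Nat.unpair_pair] at h5
  have hs : s ≤ n := hn ▸ Nat.left_le_pair _ _
  obtain ⟨u, u1, u2, u3⟩ := h5 hs
  choose v hv using fun m => (hQ _ _ (e4 m)).2.1
  refine ⟨fun m => if m < n then u m else v m, u3 _ (fun m hm => if_pos hm) fun m hm => ?_,
    fun m hm => ?_, fun m hm => ?_⟩
  · rw [if_neg hm.not_gt]
    exact e3 n m hm ((hQ _ _ (e4 m)).2.2 (hv m))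
  · dsimp only
    rw [if_pos (hm.trans_le hs)]
    exact cyl_trans (u1 m hm) (hk m hm)
  · dsimp only
    split_ifs with h
    exacts [e1 m n h ▸ u2 m h hm, hv m]

end Pool.Agent.Lib.MP_5684f0_lc.N
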