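import Pool.Agent.Lib.MP_5684f0_lc.T.Tower

/-! A bit whose value can be changed in one direction by a move that is small at level one. -/

namespace Pool.Agent.Lib.MP_5684f0_lc.N

open Filter Topology Set PiNat G T

/-- `N` is a cylinder that forces one value of a bit, and the other value is dense at level one. -/
def Dir (V : ℕ → Bool → Set (Y ℕ)) (O N : Set (Y ℕ)) : Prop :=
  ∃ a b y l, N = cylinder y l ∧ N ⊆ O ∩ V a b ∧
    ∀ x ∈ O, ∀ M, ∃ x' ∈ O ∩ V a (!b), T.R 1 x' ∈ cylinder (T.R 1 x) M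

theorem exists_dir {h : Y ℕ → Cs} {V : ℕ → Bool → Set (Y ℕ)}
    (hV : ∀ a b, IsOpen (V a b)) (hG : ∀ᶠ y in residual _, ∀ a, y ∈ V a (h y a))
    (hh : ∀ y, leT (P 1 (T.Hl y 2)) (h y)) (A : Set (Y ℕ)) (hA : IsOpen A)
    (hne : A.Nonempty) : ∃ O N, IsOpen O ∧ O ⊆ A ∧ Dir V O N := by
  have hP : ∀ (y : Y ℕ) n, P 1 (T.Hl y 2) n = true ↔
      ∀ s, T.Hl y 1 (Nat.pair n s) = true := fun y n => by
    simp only [P, T.T_Hl y 1 true 1, decide_eq_true_eq]
  by_contra hno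
  have s2 : ∀ (y0 : Y ℕ) (m0 a : ℕ), ∀ᶠ y in residual _, cylinder y0 m0 ⊆ A →
      y ∈ cylinder y0 m0 →
      ∃ M b, ∀ y' ∈ cylinder y0 m0, T.R 1 y' ∈ cylinder (T.R 1 y) M → y' ∉ V a b := by
    intro y0 m0 a
    refine residual_of_dense_open (isOpen_iff_mem_nhds.2 fun y hy => ?_)
      (dense_iff_inter_open.2 fun U hU ⟨z, hz⟩ => ?_)
    · by_cases h1 : cylinder y0 m0 ⊆ A ∧ y ∈ cylinder y0 m0
      · obtain ⟨M, b, hb⟩ := hy h1.1 h1.2
        filter_upwards [(cyl_open y M).mem_nhds (self_mem_cylinder y M)] with y1 h2 _ _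
        exact ⟨M, b, fun y' h3 h4 => hb y' h3 (cyl_trans h4 (T.rl 1 h2))⟩
      · filter_upwards [(cyl_open y m0).mem_nhds (self_mem_cylinder y m0)] with y1 h2 h3 h4
        exact absurd ⟨h3, cyl_trans (cyl_symm h2) h4⟩ h1
    by_cases h1 : cylinder y0 m0 ⊆ A ∧ z ∈ cylinder y0 m0
    swap
    · exact ⟨z, hz, fun h2 h3 => absurd ⟨h2, h3⟩ h1⟩
    obtain ⟨y1, ⟨c1, c2⟩, c3⟩ := (dense_of_mem_residual hG).inter_open_nonempty _
      (hU.inter (cyl_open y0 m0)) ⟨z, hz, h1.2⟩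
    obtain ⟨l, hl⟩ := (ev_cyl (((hU.inter (cyl_open y0 m0)).inter (hV a (h y1 a))).mem_nhds
      ⟨⟨c1, c2⟩, c3 a⟩)).exists
    by_contra hc
    refine hno ⟨cylinder y1 l ∪ cylinder y0 m0 ∩ V a (!h y1 a), cylinder y1 l,
      (cyl_open _ _).union ((cyl_open _ _).inter (hV _ _)), union_subset
        (fun x hx => h1.1 (hl hx).1.2) fun x hx => h1.1 hx.1, a, h y1 a, y1, l, rfl,
      fun x hx => ⟨Or.inl hx, (hl hx).2⟩, fun x hx M => hx.elim (fun hx => by_contra fun hn => ?_)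
        fun hx => ⟨x, ⟨Or.inr hx, hx.2⟩, self_mem_cylinder _ _⟩⟩
    exact hc ⟨x, (hl hx).1.1, fun _ _ => ⟨M, !h y1 a, fun y' h3 h4 h5 =>
      hn ⟨y', ⟨Or.inr ⟨h3, h5⟩, h5⟩, h4⟩⟩⟩
  let r := TopologicalSpace.denseSeq (Y ℕ)
  obtain ⟨G, g1, g2, g3⟩ := mem_residual.1 (hG.and (eventually_countable_forall.2 fun i =>
    eventually_countable_forall.2 fun m0 => eventually_countable_forall.2 (s2 (r i) m0)))
  obtain ⟨z, z1, z2⟩ := (g2.dense_iUnion_interior_of_closed g3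
    (f := fun e => closure {y | y ∈ G ∧
      U.ev (h y) e = fun n => Part.some (bit (P 1 (T.Hl y 2) n))})
    (fun _ => isClosed_closure) fun y hy => by
      obtain ⟨e, he⟩ := U.exists_code (leT_iff.1 (hh y))
      exact mem_iUnion.2 ⟨e, subset_closure ⟨hy, he⟩⟩).inter_open_nonempty A hA hne
  obtain ⟨e, he⟩ := mem_iUnion.1 z2
  obtain ⟨i, hk⟩ := (TopologicalSpace.denseRange_denseSeq (Y ℕ)).exists_mem_open
    (hA.inter isOpen_interior) ⟨z, z1, he⟩
  obtain ⟨n, hn⟩ := (ev_cyl ((hA.inter isOpen_interior).mem_nhds hk)).exists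
  have pick : ∀ W : Set (Y ℕ), IsOpen W → (cylinder (r i) n ∩ W).Nonempty →
      ∃ y ∈ cylinder (r i) n ∩ W, y ∈ G ∧
        U.ev (h y) e = fun n => Part.some (bit (P 1 (T.Hl y 2) n)) := fun W hW ⟨y, hy⟩ =>
    mem_closure_iff.1 (interior_subset (hn hy.1).2) _ ((cyl_open _ _).inter hW) hy
  have opn : ∀ P : ℕ → Prop, IsOpen {y : Y ℕ | P (y n)} := fun P =>
    (isOpen_discrete {d | P d}).preimage (continuous_apply n)
  obtain ⟨y, ⟨y1, y2⟩, y3, y4⟩ := pick _ (opn fun d => d = dc.symm (true, 0))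
    ⟨Function.update (r i) n (dc.symm (true, 0)),
      fun i hi => Function.update_of_ne hi.ne _ _, by simp⟩
  have t1 : P 1 (T.Hl y 2) n = true := (hP y n).2 fun s => by
    simp [T.Hl, S1, H.S, cv, tp, show y n = _ from y2]
  obtain ⟨k0, hk0⟩ := exists_cyl_subset (U.ev_open (h y) e n 1 (by simp [y4, bit, t1]))
  choose M b hb using fun a => (g1 y3).2 i n a (fun _ h => (hn h).1) y1
  have t0 : y ∈ cylinder (Function.update y n (dc.symm (false, 0))) n :=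
    fun i hi => by rw [Function.update_of_ne hi.ne]
  obtain ⟨x, k1, k2, k3⟩ := amal' 0 y _ n ((Finset.range k0).sup M) (T.rl 0 t0)
  obtain ⟨y', ⟨a1, a2, a3⟩, a4, a5⟩ := pick _
    ((op_of (T.rl 1) (T.R 1 y) ((Finset.range k0).sup M)).inter (opn fun d => (dc d).1 = false))
    ⟨x, cyl_trans k1 (cyl_trans (cyl_symm t0) y1), k2, by simpa [tp] using congrFun k3 n⟩
  have t2 : h y' ∈ cylinder (h y) k0 := fun a ha => by
    have b1 := hb a y y1 (self_mem_cylinder _ _)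
    have b2 := hb a y' a1 (cylinder_anti _ (Finset.le_sup (Finset.mem_range.2 ha)) a2)
    have b3 : h y a ≠ b a := fun h => b1 (h ▸ (g1 y3).1 a)
    have b4 : h y' a ≠ b a := fun h => b2 (h ▸ (g1 a4).1 a)
    revert b3 b4
    cases h y a <;> cases h y' a <;> cases b a <;> simp
  have t3 : P 1 (T.Hl y' 2) n = true :=
    by_contra fun h => by simpa [a5, bit, h] using hk0 t2
  obtain ⟨s, hs⟩ := (S1_lim 0 (T.Hl y' 0) (cv y' 0) n).exists
  have t4 := hs.symm.trans ((hP y' n).1 t3 s)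
  exact Bool.false_ne_true ((show tp y' n = false from a3).symm.trans t4)

end Pool.Agent.Lib.MP_5684f0_lc.N
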