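import Pool.Agent.Lib.MP_5684f0_lc.T.Sum

/-! Iterated limits of sets decided at a lower level are decided at the upper level, on a generic
set. -/

namespace Pool.Agent.Lib.MP_5684f0_lc.N

open Filter Topology Set PiNat G T

variable {D α : Type} {p p' p1 : Y D → ℕ → α}

/-- Open at level `p`. -/
def PO (p : Y D → ℕ → α) (U : Set (ℕ → Y D)) : Prop :=
  ∀ w ∈ U, ∃ M, ∀ w', Agr p w' w M → w' ∈ U

theorem agr_mono {x w : ℕ → Y D} {M M' : ℕ} (h : Agr p x w M') (hM : M ≤ M') : Agr p x w M :=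
  h.trans (fun _ _ => self_mem_cylinder _ _) hM

theorem PO.lip {U : Set (ℕ → Y D)} (h : PO p' U) (hp : Lip p p') : PO p U := fun w hw =>
  (h w hw).imp fun _ h w' h' => h w' fun m hm => hp (h' m hm)

theorem PO.iUnion {ι : Sort*} {U : ι → Set (ℕ → Y D)} (h : ∀ i, PO p (U i)) : PO p (⋃ i, U i) :=
  fun w hw => by
    obtain ⟨i, hi⟩ := mem_iUnion.1 hw
    exact (h i w hi).imp fun _ h w' h' => mem_iUnion.2 ⟨i, h w' h'⟩

theorem PO.union {U V : Set (ℕ → Y D)} (h : PO p U) (h' : PO p V) : PO p (U ∪ V) := fun w hw =>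
  hw.elim (fun a => (h w a).imp fun _ h w' b => Or.inl (h w' b))
    fun a => (h' w a).imp fun _ h w' b => Or.inr (h w' b)

/-- The points with a neighbourhood at level `p` that misses `A`. -/
def Ext (p : Y D → ℕ → α) (A : Set (ℕ → Y D)) : Set (ℕ → Y D) :=
  {w | ∃ l, ∀ w', Agr p w' w l → w' ∉ A}

theorem po_ext (A : Set (ℕ → Y D)) : PO p (Ext p A) := fun _ ⟨l, h⟩ =>
  ⟨l, fun _ h' => ⟨l, fun w'' h'' => h w'' (h''.trans h' le_rfl)⟩⟩

variable [TopologicalSpace D] [DiscreteTopology D]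

theorem PO.isOpen {U : Set (ℕ → Y D)} (h : PO p U) (hp : Lip id p) : IsOpen U :=
  isOpen_iff_mem_nhds.2 fun w hw => by
    obtain ⟨M, hM⟩ := h w hw
    exact mem_of_superset ((isOpen_set_pi (finite_Iio M) fun m _ => cyl_open (w m) M).mem_nhds
      fun m _ => self_mem_cylinder _ _) fun w' h' => hM w' fun m hm => hp (h' m hm)

theorem dense_of_box {U : Set (ℕ → Y D)}
    (h : ∀ (w : ℕ → Y D) s, ∃ w' ∈ U, ∀ m < s, w' m ∈ cylinder (w m) s) : Dense U :=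
  dense_iff_inter_open.2 fun V hV ⟨w, hw⟩ => by
    have h1 := hV.mem_nhds hw
    rw [nhds_pi, Filter.mem_pi'] at h1
    obtain ⟨I, t, ht, hI⟩ := h1
    obtain ⟨s, h2, h3⟩ := ((eventually_gt_atTop (I.sup id)).and
      ((Finset.eventually_all I).2 fun m _ => ev_cyl (ht m))).exists
    obtain ⟨w', a, b⟩ := h w s
    exact ⟨w', hI fun m hm => h3 m hm (b m ((Finset.le_sup (f := id) hm).trans_lt h2)), a⟩

/-- Contains an intersection of countably many dense sets that are open at level `p1`. -/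
def Gen (p1 : Y D → ℕ → α) (G : Set (ℕ → Y D)) : Prop :=
  ∃ E : ℕ → Set (ℕ → Y D), (∀ j, PO p1 (E j) ∧ Dense (E j)) ∧ ∀ w, (∀ j, w ∈ E j) → w ∈ G

omit [DiscreteTopology D] in
theorem Gen.mono {G G' : Set (ℕ → Y D)} (h : Gen p1 G) (h' : ∀ w ∈ G, w ∈ G') : Gen p1 G' :=
  h.imp fun _ h => ⟨h.1, fun w hw => h' w (h.2 w hw)⟩

omit [DiscreteTopology D] in
theorem Gen.all {P : ℕ → (ℕ → Y D) → Prop} (h : ∀ i, Gen p1 {w | P i w}) :
    Gen p1 {w | ∀ i, P i w} := by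
  choose E h1 h2 using h
  exact ⟨fun j => E j.unpair.1 j.unpair.2, fun j => h1 _ _, fun w hw i =>
    h2 i w fun j => by simpa using hw (Nat.pair i j)⟩

omit [DiscreteTopology D] in
theorem Gen.and {P Q : (ℕ → Y D) → Prop} (h : Gen p1 {w | P w}) (h' : Gen p1 {w | Q w}) :
    Gen p1 {w | P w ∧ Q w} :=
  (Gen.all (P := fun i => Nat.casesOn i P fun _ => Q) fun i => by cases i; exacts [h, h']).mono
    fun _ h => ⟨h 0, h 1⟩

omit [DiscreteTopology D] in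
theorem Gen.of {E : Set (ℕ → Y D)} (h : PO p1 E) (h' : Dense E) : Gen p1 {w | w ∈ E} :=
  ⟨fun _ => E, fun _ => ⟨h, h'⟩, fun _ h => h 0⟩

/-- Decided at level `p` on a generic set. -/
def Dcd (p1 p : Y D → ℕ → α) (A : Set (ℕ → Y D)) : Prop :=
  ∃ U V, PO p U ∧ PO p V ∧ Gen p1 {w | (w ∈ A ↔ w ∈ U) ∧ (w ∉ A ↔ w ∈ V)}

theorem Dcd.lim {c : ℕ} (h1 : Lip p1 p) (hT : Tower .one c p p')
    {B : ℕ → Set (ℕ → Y D)} (hB : ∀ s, Dcd p1 p' (B s)) {A : Set (ℕ → Y D)}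
    (hA : ∀ w, ∀ᶠ s in atTop, (w ∈ B s ↔ w ∈ A)) : Dcd p1 p A := by
  choose U V u v g using hB
  have key : ∀ W : Set (ℕ → Y D), PO p' W → Gen p1 {w | w ∈ W ∪ Ext p W} := fun W hW =>
    .of (((hW.lip hT.1).union (po_ext W)).lip h1) (dense_of_box fun w s => by
      by_cases h : w ∈ Ext p W
      · exact ⟨w, Or.inr h, fun _ _ => self_mem_cylinder _ _⟩
      simp only [Ext, mem_ofPred_eq, not_exists, not_forall, not_not] at h
      obtain ⟨w', a, b⟩ := h (max s c)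
      obtain ⟨M, hM⟩ := hW w' b
      have : ∀ m, ∃ x, (m < s → x ∈ cylinder (w m) s) ∧ p' x ∈ cylinder (p' (w' m)) M := fun m => by
        by_cases hm : m < s
        · obtain ⟨x, x1, x2⟩ := hT.2 _ _ _ M (le_max_right s c) (a m (by omega))
          exact ⟨x, fun _ => cylinder_anti _ (le_max_left s c) x1, x2⟩
        · exact ⟨w' m, fun h => absurd h hm, self_mem_cylinder _ _⟩
      choose x x1 x2 using this
      exact ⟨x, Or.inl (hM x fun m _ => x2 m), x1⟩)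
  have self : ∀ {W : Set (ℕ → Y D)} {w}, w ∈ Ext p W → w ∉ W := fun ⟨_, h⟩ =>
    h _ fun _ _ => self_mem_cylinder _ _
  refine ⟨⋃ n, Ext p (⋃ s, ⋃ _ : n ≤ s, V s), ⋃ n, Ext p (⋃ s, ⋃ _ : n ≤ s, U s),
    .iUnion fun _ => po_ext _, .iUnion fun _ => po_ext _, ((Gen.all g).and
      ((Gen.all fun n => key (⋃ s, ⋃ _ : n ≤ s, V s) (.iUnion fun s => .iUnion fun _ => v s)).and
      (Gen.all fun n => key (⋃ s, ⋃ _ : n ≤ s, U s) (.iUnion fun s => .iUnion fun _ => u s)))).mono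
      fun w ⟨a, b, b'⟩ => ?_⟩
  obtain ⟨n, hn⟩ := eventually_atTop.1 (hA w)
  refine ⟨⟨fun h => mem_iUnion.2 ⟨n, (b n).resolve_left fun h' => ?_⟩, fun h => ?_⟩,
    fun h => mem_iUnion.2 ⟨n, (b' n).resolve_left fun h' => ?_⟩, fun h h' => ?_⟩
  · obtain ⟨s, hs, h'⟩ := mem_iUnion₂.1 h'
    exact (a s).2.2 h' ((hn s hs).2 h)
  · obtain ⟨k, hk⟩ := mem_iUnion.1 h
    exact (hn (max n k) (le_max_left _ _)).1 (not_not.1 fun h' =>
      self hk (mem_iUnion₂.2 ⟨max n k, le_max_right _ _, (a _).2.1 h'⟩))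
  · obtain ⟨s, hs, h'⟩ := mem_iUnion₂.1 h'
    exact h ((hn s hs).1 ((a s).1.2 h'))
  · obtain ⟨k, hk⟩ := mem_iUnion.1 h
    exact self hk (mem_iUnion₂.2 ⟨max n k, le_max_right _ _,
      (a _).1.1 ((hn _ (le_max_left _ _)).2 h')⟩)

theorem Dcd.cl {φ : (ℕ → Y D) → Cs} (L : Lay) : ∀ {c : ℕ} {p p' : Y D → ℕ → α} {W : Set (Set Cs)},
    Lip p1 p → Tower L c p p' → (∀ B ∈ W, Dcd p1 p' (φ ⁻¹' B)) →
    ∀ A ∈ Cl L W, Dcd p1 p (φ ⁻¹' A) := by
  induction L with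
  | zero =>
    intro c p p' W _ hT h A hA
    obtain ⟨U, V, u, v, g⟩ := h A hA
    exact ⟨U, V, u.lip hT, v.lip hT, g⟩
  | one => exact fun h1 hT h A ⟨B, b, b'⟩ => Dcd.lim h1 hT (fun s => h _ (b s)) fun w => b' (φ w)
  | sum L ih =>
    rintro c p p' W h1 ⟨q, rfl, hq⟩ h A hA
    obtain ⟨n, hn⟩ := mem_iUnion.1 hA
    have h3 : ∀ n : ℕ, ∀ A ∈ (Nat.rec W (fun n D => Cl (L n) D) n : Set (Set Cs)),
        Dcd p1 (q n) (φ ⁻¹' A) := fun n => by
      induction n with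
      | zero => exact h
      | succ n h => exact ih n (fun _ _ _ a => (hq _).1 (h1 a)) (hq n).2 h
    obtain ⟨U, V, u, v, g⟩ := h3 n A hn
    exact ⟨U, V, u.lip (hq n).1, v.lip (hq n).1, g⟩

/-- A countable intersection of sets open at level `p`, on a generic set. -/
def Gd (p : Y D → ℕ → α) (A : Set (ℕ → Y D)) : Prop :=
  ∃ U : ℕ → Set (ℕ → Y D), (∀ n, PO p (U n)) ∧ Gen p {w | w ∈ A ↔ ∀ n, w ∈ U n}

omit [DiscreteTopology D] in
theorem Gd.lim {B : ℕ → Set (ℕ → Y D)} (hB : ∀ s, Dcd p p (B s)) {A : Set (ℕ → Y D)}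
    (hA : ∀ w, ∀ᶠ s in atTop, (w ∈ B s ↔ w ∈ A)) : Gd p A ∧ Gd p Aᶜ := by
  choose U V u v g using hB
  refine ⟨⟨fun n => ⋃ s, ⋃ _ : n ≤ s, U s, fun _ => .iUnion fun s => .iUnion fun _ => u s,
    (Gen.all g).mono fun w a => ?_⟩, fun n => ⋃ s, ⋃ _ : n ≤ s, V s,
    fun _ => .iUnion fun s => .iUnion fun _ => v s, (Gen.all g).mono fun w a => ?_⟩ <;>
  obtain ⟨n, hn⟩ := eventually_atTop.1 (hA w)
  · refine ⟨fun h k => mem_iUnion₂.2 ⟨max n k, le_max_right _ _,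
      (a _).1.1 ((hn _ (le_max_left _ _)).2 h)⟩, fun h => ?_⟩
    obtain ⟨s, hs, h'⟩ := mem_iUnion₂.1 (h n)
    exact (hn s hs).1 ((a s).1.2 h')
  · refine ⟨fun h k => mem_iUnion₂.2 ⟨max n k, le_max_right _ _,
      (a _).2.1 fun h' => h ((hn _ (le_max_left _ _)).1 h')⟩, fun h h'' => ?_⟩
    obtain ⟨s, hs, h'⟩ := mem_iUnion₂.1 (h n)
    exact (a s).2.2 h' ((hn s hs).2 h'')

omit [DiscreteTopology D] in
theorem Gd.all {P : ℕ → (ℕ → Y D) → Prop} (h : ∀ i, Gd p {w | P i w}) : Gd p {w | ∀ i, P i w} := by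
  choose U u g using h
  exact ⟨fun j => U j.unpair.1 j.unpair.2, fun j => u _ _, (Gen.all g).mono fun w a =>
    ⟨fun h j => (a _).1 (h _) _, fun h i => (a i).2 fun j => by simpa using h (Nat.pair i j)⟩⟩

omit [DiscreteTopology D] in
theorem Gd.or {P Q : (ℕ → Y D) → Prop} (h : Gd p {w | P w}) (h' : Gd p {w | Q w}) :
    Gd p {w | P w ∨ Q w} := by
  obtain ⟨U, u, g⟩ := h
  obtain ⟨V, v, g'⟩ := h'
  refine ⟨fun j => U j.unpair.1 ∪ V j.unpair.2, fun j => (u _).union (v _),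
    (g.and g').mono fun w a => ⟨fun h j => h.imp (fun h => a.1.1 h _) fun h => a.2.1 h _,
      fun h => or_iff_not_imp_left.2 fun h1 => a.2.2 fun j => ?_⟩⟩
  obtain ⟨i, hi⟩ := not_forall.1 fun h => h1 (a.1.2 h)
  simpa [hi] using h (Nat.pair i j)

omit [DiscreteTopology D] in
theorem Gd.and {P Q : (ℕ → Y D) → Prop} (h : Gd p {w | P w}) (h' : Gd p {w | Q w}) :
    Gd p {w | P w ∧ Q w} := by
  convert Gd.all (P := fun i => Nat.casesOn i P fun _ => Q) fun i => by cases i; exacts [h, h']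
    using 3
  exact ⟨fun h i => by cases i; exacts [h.1, h.2], fun h => ⟨h 0, h 1⟩⟩

omit [DiscreteTopology D] in
theorem Gd.eq {u v : (ℕ → Y D) → Bool} (hu : ∀ b, Gd p {w | u w = b})
    (hv : ∀ b, Gd p {w | v w = b}) : Gd p {w | u w = v w} := by
  convert ((hu false).or (hv true)).and ((hu true).or (hv false)) using 3 with w
  cases u w <;> cases v w <;> simp

end Pool.Agent.Lib.MP_5684f0_lc.N
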